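import Pool.Agent.Run7.h121.UM.Concrete
set_option autoImplicit false

namespace Pool.Agent.Results.MP_3e2ec7_co.AbelianCayleyIntegral

/-- The transition matrix exp(it A) of the Cayley graph of G with connection set C. -/
noncomputable def transition {G : Type} [AddCommGroup G] [Fintype G] [DecidableEq G]
    (C : Finset G) (t : ℝ) : Matrix G G ℂ :=
  NormedSpace.exp ((Complex.I * (t : ℂ)) •
    (Matrix.of fun x y : G => if y - x ∈ C then (1 : ℂ) else 0))

/-- If a Cayley graph of a finite abelian group with integer eigenvalues has uniform mixing at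
time t, then every eigenvalue of its transition matrix at time t is an algebraic integer. -/
theorem result (G : Type) [AddCommGroup G] [Fintype G] [DecidableEq G]
    (hG : 2 ≤ Fintype.card G) (C : Finset G) (_h0 : (0 : G) ∉ C) (hC : ∀ c ∈ C, -c ∈ C)
    (hint : ∀ ψ : AddChar G ℂ, ∃ m : ℤ, (∑ c ∈ C, ψ c) = m) (t : ℝ)
    (hU : ∀ a b : G, ‖transition C t a b‖ ^ 2 = 1 / (Fintype.card G : ℝ))
    (μ : ℂ) (v : G → ℂ) (hv : v ≠ 0) (hμ : (transition C t).mulVec v = μ • v) :
    IsIntegral ℤ μ := by
  classical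
  choose θ hθ using hint
  have hz := Pool.Agent.Run7.h121.UM.integral_of_uniform C θ hθ t hG (fun y => hU 0 y)
  have hsymm : (Pool.Agent.Run7.h121.UM.adj C).transpose = Pool.Agent.Run7.h121.UM.adj C := by
    ext x y
    simp only [Pool.Agent.Run7.h121.UM.adj, Matrix.transpose_apply, Matrix.of_apply]
    have : x - y ∈ C ↔ y - x ∈ C := by
      constructor
      · intro h; have := hC _ h; rwa [neg_sub] at this
      · intro h; have := hC _ h; rwa [neg_sub] at this
    simp [this]
  have hUsymm : (transition C t).transpose = transition C t := by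
    show (NormedSpace.exp ((Complex.I * (t : ℂ)) • Pool.Agent.Run7.h121.UM.adj C)).transpose
      = NormedSpace.exp ((Complex.I * (t : ℂ)) • Pool.Agent.Run7.h121.UM.adj C)
    rw [← Matrix.exp_transpose, Matrix.transpose_smul, hsymm]
  have heig : ∀ ψ : AddChar G ℂ, (transition C t).mulVec (fun x => ψ x)
      = Complex.exp (Complex.I * t * ∑ c ∈ C, ψ c) • (fun x => ψ x) := by
    intro ψ
    have h : ((Complex.I * (t : ℂ)) • Pool.Agent.Run7.h121.UM.adj C).mulVec (fun x => ψ x)
        = (Complex.I * t * ∑ c ∈ C, ψ c) • (fun x => ψ x) := by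
      rw [Matrix.smul_mulVec, Pool.Agent.Run7.h121.UM.adj_mulVec, smul_smul]
    exact Pool.Agent.Run7.h121.UM.exp_mulVec _ _ _ h
  have hz1 : IsIntegral ℤ (Complex.exp (Complex.I * t))⁻¹ := by
    have : (Complex.exp (Complex.I * t))⁻¹ = (starRingEnd ℂ) (Complex.exp (Complex.I * t)) := by
      rw [← Complex.exp_neg, ← Complex.exp_conj]; simp
    rw [this]
    exact hz.map (Complex.conjAe.restrictScalars ℤ)
  have hpow : ∀ m : ℤ, IsIntegral ℤ ((Complex.exp (Complex.I * t)) ^ m) := by
    intro m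
    obtain ⟨n, rfl | rfl⟩ := m.eq_nat_or_neg
    · rw [zpow_natCast]; exact hz.pow n
    · rw [zpow_neg, zpow_natCast, ← inv_pow]; exact hz1.pow n
  -- a character with nonzero coefficient
  obtain ⟨ψ, hψ⟩ : ∃ ψ : AddChar G ℂ, (∑ x, ψ x * v x) ≠ 0 := by
    by_contra hcon
    push Not at hcon
    apply hv
    funext y
    have h1 : (∑ ψ : AddChar G ℂ, ψ (-y) * ∑ x, ψ x * v x) = (Fintype.card G : ℂ) * v y := by
      have e1 : (∑ ψ : AddChar G ℂ, ψ (-y) * ∑ x, ψ x * v x)
          = ∑ x, v x * ∑ ψ : AddChar G ℂ, ψ (x - y) := by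
        simp_rw [Finset.mul_sum]
        rw [Finset.sum_comm]
        refine Finset.sum_congr rfl fun x _ => Finset.sum_congr rfl fun ψ _ => ?_
        rw [sub_eq_add_neg, AddChar.map_add_eq_mul]; ring
      rw [e1]
      simp_rw [AddChar.sum_apply_eq_ite, sub_eq_zero]
      simp [mul_comm]
    simp_rw [hcon, mul_zero, Finset.sum_const_zero] at h1
    have hn0 : (Fintype.card G : ℂ) ≠ 0 := by exact_mod_cast Fintype.card_ne_zero
    rcases mul_eq_zero.mp h1.symm with h | h
    · exact absurd h hn0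
    · exact h
  have h1 : dotProduct (fun x => ψ x) ((transition C t).mulVec v)
      = dotProduct ((transition C t).mulVec (fun x => ψ x)) v := by
    rw [Matrix.dotProduct_mulVec, ← Matrix.mulVec_transpose, hUsymm]
  rw [hμ, heig] at h1
  simp only [dotProduct_smul, smul_dotProduct, smul_eq_mul] at h1
  have h2 : dotProduct (fun x => ψ x) v ≠ 0 := hψ
  have h3 : μ = Complex.exp (Complex.I * t * ∑ c ∈ C, ψ c) := mul_right_cancel₀ h2 h1
  rw [h3, hθ ψ]
  have h4 : Complex.exp (Complex.I * t * (θ ψ : ℂ)) = (Complex.exp (Complex.I * t)) ^ (θ ψ) := by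
    rw [← Complex.exp_int_mul, mul_comm]
  rw [h4]
  exact hpow _

end Pool.Agent.Results.MP_3e2ec7_co.AbelianCayleyIntegral
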